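import Mathlib
import Pool.Agent.Lib.helper1.MMA

namespace Pool.Agent.Results.MP_f57c03_lc.Regular

open Pool.Agent.Lib.helper1.MM MvPolynomial Filter Topology

/-- the indeterminates `a_ij` (left) and `b_ij` (right) -/
abbrev Var (n : ℕ) : Type := (Fin n × Fin n) ⊕ (Fin n × Fin n)

/-- rational functions in the indeterminates -/
abbrev RF (K : Type) [Field K] (n : ℕ) : Type := FractionRing (MvPolynomial (Var n) K)

/-- an indeterminate as a rational function -/
noncomputable def var (K : Type) [Field K] (n : ℕ) (s : Var n) : RF K n :=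
  algebraMap (MvPolynomial (Var n) K) (RF K n) (X s)

/-- least length of a straight-line program whose results include all entries of the product -/
noncomputable def M (K : Type) [Field K] (n : ℕ) : ℕ :=
  sInf {k | ∃ l : List (RF K n), Prog K (Set.range (var K n)) l ∧ l.length = k ∧
    ∀ i j : Fin n, ∑ t, var K n (.inl (i, t)) * var K n (.inr (t, j)) ∈ l}

variable {K : Type} [Field K] {n : ℕ}

lemma of_MM {c : ℕ} (h : MMc K (Set.range (var K n)) (Fin n) c) :
    ∃ l : List (RF K n), Prog K (Set.range (var K n)) l ∧ l.length ≤ c + n ^ 2 ∧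
      ∀ i j : Fin n, ∑ t, var K n (.inl (i, t)) * var K n (.inr (t, j)) ∈ l := by
  obtain ⟨l, a, -, b, d⟩ := h (Matrix.of fun i j => var K n (.inl (i, j)))
    (Matrix.of fun i j => var K n (.inr (i, j))) [] Prog.nil (by
      rintro _ (⟨p, rfl⟩ | ⟨p, rfl⟩) <;> exact Or.inr (Or.inl ⟨_, rfl⟩))
  obtain ⟨l', a', -, b', d'⟩ := materialise
    (fun p : Fin n × Fin n => ∑ t, var K n (.inl (p.1, t)) * var K n (.inr (t, p.2))) Finset.univ l a
    (fun p => d _ ⟨p, by simp [Matrix.mul_apply]⟩)
  refine ⟨l', a', ?_, fun i j => d' (i, j) (Finset.mem_univ _)⟩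
  simp only [Finset.card_univ, Fintype.card_prod, Fintype.card_fin, List.length_nil] at b b'
  rw [pow_two]; omega

lemma M_le {c : ℕ} (h : MMc K (Set.range (var K n)) (Fin n) c) : M K n ≤ c + n ^ 2 := by
  obtain ⟨l, a, b, d⟩ := of_MM h
  exact le_trans (Nat.sInf_le (by exact ⟨l, a, rfl, d⟩)) b

lemma M_spec : ∃ l : List (RF K n), Prog K (Set.range (var K n)) l ∧ l.length = M K n ∧
    ∀ i j : Fin n, ∑ t, var K n (.inl (i, t)) * var K n (.inr (t, j)) ∈ l := by
  obtain ⟨c, h⟩ := MMc.naive (K := K) (B := Set.range (var K n)) (Fin n)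
  obtain ⟨l, a, -, d⟩ := of_MM h
  exact Nat.sInf_mem (s := {k | ∃ l : List (RF K n), Prog K (Set.range (var K n)) l ∧ l.length = k ∧
    ∀ i j : Fin n, ∑ t, var K n (.inl (i, t)) * var K n (.inr (t, j)) ∈ l}) ⟨_, l, a, rfl, d⟩

lemma exD (s : Var n) : ∃ D : RF K n →+ RF K n, (∀ x y, D (x * y) = x * D y + D x * y) ∧
    (∀ c : K, D (algebraMap K _ c) = 0) ∧ ∀ s', D (var K n s') = if s' = s then 1 else 0 := by
  let φ : MvPolynomial (Var n) K →+* DualNumber (RF K n) :=
    eval₂Hom ((TrivSqZeroExt.inlHom _ _).comp (algebraMap K (RF K n)))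
      fun s' => TrivSqZeroExt.inl (var K n s') + TrivSqZeroExt.inr (if s' = s then 1 else 0)
  have h1 : (TrivSqZeroExt.fstHom (RF K n) (RF K n) (RF K n)).toRingHom.comp φ =
      algebraMap (MvPolynomial (Var n) K) (RF K n) := by
    refine MvPolynomial.ringHom_ext (fun c => ?_) (fun s' => ?_)
    · simp [φ, IsScalarTower.algebraMap_apply K (MvPolynomial (Var n) K) (RF K n)]
    · by_cases hs : s' = s <;> simp [φ, var, hs]
  have h2 : ∀ y : nonZeroDivisors (MvPolynomial (Var n) K), IsUnit (φ y) := by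
    intro y
    rw [TrivSqZeroExt.isUnit_iff_isUnit_fst]
    have : (φ y).fst = algebraMap _ (RF K n) (y : MvPolynomial (Var n) K) := RingHom.congr_fun h1 y
    rw [this]
    exact IsLocalization.map_units _ y
  let Φ : RF K n →+* DualNumber (RF K n) := IsLocalization.lift h2
  have h3 : (TrivSqZeroExt.fstHom (RF K n) (RF K n) (RF K n)).toRingHom.comp Φ = RingHom.id _ := by
    refine IsLocalization.ringHom_ext (nonZeroDivisors (MvPolynomial (Var n) K)) ?_
    rw [RingHom.comp_assoc, IsLocalization.lift_comp, h1, RingHom.id_comp]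
  have h4 : ∀ x, (Φ x).fst = x := fun x => RingHom.congr_fun h3 x
  refine ⟨(TrivSqZeroExt.sndHom (RF K n) (RF K n)).toAddMonoidHom.comp Φ.toAddMonoidHom,
    fun x y => ?_, fun c => ?_, fun s' => ?_⟩
  · change (Φ (x * y)).snd = x * (Φ y).snd + (Φ x).snd * y
    rw [map_mul, DualNumber.snd_mul, h4, h4]
  · change (Φ _).snd = 0
    rw [IsScalarTower.algebraMap_apply K (MvPolynomial (Var n) K) (RF K n), IsLocalization.lift_eq]
    simp [φ]
  · change (Φ _).snd = _
    rw [var, IsLocalization.lift_eq]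
    by_cases hs : s' = s <;> simp [φ, hs]

lemma dec_of_prog (hn : 1 ≤ n) : Dec (RF K n) (Fin n) (M K n) ∧ n ^ 2 ≤ M K n := by
  classical
  choose D hm hc hv using exD (K := K) (n := n)
  have D0 : ∀ (s : Var n) (p : Prop) [Decidable p], D s (if p then 1 else 0) = 0 := by
    intro s p _
    split_ifs
    · simpa using hc s 1
    · simp
  let H : RF K n → (Fin n × Fin n) × (Fin n × Fin n) → RF K n :=
    fun x z => D (.inl z.1) (D (.inr z.2) x)
  let P : RF K n → (Fin n × Fin n) × (Fin n × Fin n) → RF K n :=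
    fun x z => D (.inl z.1) x * D (.inr z.2) x
  have key : ∀ x y, (x * y) • H (x * y) = (x * y * x) • H y + (x * y * y) • H x +
      (P (x * y) - (x * x) • P y - (y * y) • P x) := by
    intro x y
    funext z
    simp only [H, P, hm, map_add, Pi.add_apply, Pi.sub_apply, Pi.smul_apply, smul_eq_mul]
    ring
  have hP : ∀ l x, Avail K (Set.range (var K n)) l x → P x ∈ Submodule.span (RF K n) (P '' {h | h ∈ l}) := by
    rintro l x (hx | ⟨s, rfl⟩ | ⟨c, rfl⟩)
    · exact Submodule.subset_span ⟨x, hx, rfl⟩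
    · have : P (var K n s) = 0 := by
        funext z
        cases s <;> simp [P, hv]
      rw [this]; exact zero_mem _
    · have : P (algebraMap K _ c) = 0 := by funext z; simp [P, hc]
      rw [this]; exact zero_mem _
  have H0 : H 0 = 0 := by funext z; simp [H]
  have hH : ∀ l, Prog K (Set.range (var K n)) l → ∀ x, Avail K (Set.range (var K n)) l x →
      H x ∈ Submodule.span (RF K n) (P '' {h | h ∈ l}) := by
    intro l hl
    have base : ∀ (l : List (RF K n)) x, (x ∈ Set.range (var K n) ∨ ∃ c : K, x = algebraMap K _ c) →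
        H x ∈ Submodule.span (RF K n) (P '' {h | h ∈ l}) := by
      rintro l x (⟨s, rfl⟩ | ⟨c, rfl⟩)
      · have : H (var K n s) = 0 := by funext z; simp only [H, hv, D0]; rfl
        rw [this]; exact zero_mem _
      · have : H (algebraMap K _ c) = 0 := by funext z; simp [H, hc]
        rw [this]; exact zero_mem _
    induction hl with
    | nil =>
      rintro x (hx | hx)
      · simp at hx
      · exact base _ _ hx
    | step l x y g _ hx hy hg ih =>
      have mono : Submodule.span (RF K n) (P '' {h | h ∈ l}) ≤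
          Submodule.span (RF K n) (P '' {h | h ∈ g :: l}) :=
        Submodule.span_mono (Set.image_mono fun h hh => List.mem_cons_of_mem _ hh)
      rintro z (hz | hz)
      swap
      · exact base _ _ hz
      rcases List.mem_cons.1 hz with rfl | hz
      swap
      · exact mono (ih z (Or.inl hz))
      have a1 := mono (ih x hx)
      have a2 := mono (ih y hy)
      have b1 := mono (hP l x hx)
      have b2 := mono (hP l y hy)
      have b3 := hP _ _ (avail_head (K := K) (B := Set.range (var K n)) l z)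
      generalize Submodule.span (RF K n) (P '' {h | h ∈ z :: l}) = W at *
      rcases hg with rfl | rfl | rfl | ⟨h0, rfl⟩
      · have : H (x + y) = H x + H y := by funext z; simp [H]
        rw [this]; exact add_mem a1 a2
      · have : H (x - y) = H x - H y := by funext z; simp [H]
        rw [this]; exact sub_mem a1 a2
      · by_cases h : x * y = 0
        · rw [h, H0]; exact zero_mem _
        · rw [← W.smul_mem_iff h, key]
          exact add_mem (add_mem (W.smul_mem _ a2) (W.smul_mem _ a1))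
            (sub_mem (sub_mem b3 (W.smul_mem _ b2)) (W.smul_mem _ b1))
      · by_cases h : x = 0
        · rw [h, zero_div, H0]; exact zero_mem _
        · have k := key (x / y) y
          rw [div_mul_cancel₀ _ h0] at k
          rw [← W.smul_mem_iff (mul_ne_zero h h0)]
          have : (x * y) • H (x / y) = x • H x - (x * (x / y)) • H y -
              (P x - (x / y * (x / y)) • P y - (y * y) • P (x / y)) := by rw [k]; abel
          rw [this]
          exact sub_mem (sub_mem (W.smul_mem _ a1) (W.smul_mem _ a2))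
            (sub_mem (sub_mem b1 (W.smul_mem _ b2)) (W.smul_mem _ b3))
  obtain ⟨l, hl, hlen, hout⟩ := M_spec (K := K) (n := n)
  have val : ∀ p q i j k m : Fin n, H (∑ t, var K n (.inl (p, t)) * var K n (.inr (t, q))) ((i, j), (k, m)) =
      if j = k ∧ p = i ∧ q = m then 1 else 0 := by
    intro p q i j k m
    simp only [H, map_sum, hm, hv, D0, reduceCtorEq, if_false, Sum.inr.injEq, Sum.inl.injEq,
      Prod.mk.injEq, mul_zero, zero_mul, add_zero, zero_add]
    rw [Finset.sum_eq_single k]
    · by_cases h1 : j = k <;> by_cases h2 : p = i <;> by_cases h3 : q = m <;> simp [h1, h2, h3, eq_comm]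
    · intro t _ ht; simp [ht]
    · simp
  constructor
  · have : ∀ p q : Fin n, ∃ c : Fin l.length → RF K n, ∑ t, c t • P (l.get t) =
        H (∑ t, var K n (.inl (p, t)) * var K n (.inr (t, q))) := by
      intro p q
      have h1 := hH l hl _ (Or.inl (hout p q))
      rw [← Set.range_list_get, ← Set.range_comp] at h1
      exact (Submodule.mem_span_range_iff_exists_fun _).1 h1
    choose c hc' using this
    refine ⟨Fin l.length, inferInstance, fun t i j => D (.inl (i, j)) (l.get t),
      fun t i j => D (.inr (i, j)) (l.get t), fun t p q => c p q t, by simp [hlen], ?_⟩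
    intro i j k m p q
    rw [← val, ← hc', Finset.sum_apply]
    exact Finset.sum_congr rfl fun t _ => by simp only [P, Pi.smul_apply, smul_eq_mul]; ring
  · rw [← hlen]
    refine le_trans ?_ (List.toFinset_card_le l)
    have := Finset.card_le_card_of_injOn (s := (Finset.univ : Finset (Fin n × Fin n))) (t := l.toFinset)
      (fun p => ∑ t, var K n (.inl (p.1, t)) * var K n (.inr (t, p.2)))
      (fun p _ => by simpa using hout p.1 p.2) (by
        rintro ⟨p, q⟩ - ⟨p', q'⟩ - h
        have h1 := val p q p ⟨0, hn⟩ ⟨0, hn⟩ q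
        simp only at h
        rw [h, val] at h1
        by_contra hne
        rw [if_neg (by rintro ⟨-, rfl, rfl⟩; exact hne rfl)] at h1
        simp at h1)
    simpa [pow_two] using this

lemma good (ω : ℝ) (n0 : ℕ) (h2 : 2 ≤ n0) (h : (M K n0 : ℝ) < n0 ^ ω) :
    ∃ n r : ℕ, 2 ≤ n ∧ n ^ 2 ≤ r ∧ Dec K (Fin n) r ∧ (r : ℝ) < n ^ ω := by
  obtain ⟨d, hl⟩ := dec_of_prog (K := K) (n := n0) (by omega)
  obtain ⟨k, hk⟩ := Dec.spec K d
  have p0 : (0 : ℝ) < n0 ^ ω := by positivity
  have t := (tendsto_pow_atTop_nhds_zero_of_lt_one (r := (M K n0 : ℝ) / (n0 : ℝ) ^ ω) (by positivity)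
    ((div_lt_one p0).2 h)).mul_const (((k : ℝ) + 1) ^ 2)
  rw [zero_mul] at t
  obtain ⟨j, h1, hj⟩ := ((t.eventually (gt_mem_nhds zero_lt_one)).and (eventually_ge_atTop 1)).exists
  refine ⟨n0 ^ j, _, h2.trans (Nat.le_self_pow (by omega) _), ?_, hk n0 (by simp) j, ?_⟩
  · rw [← pow_mul, mul_comm, pow_mul]
    exact (Nat.pow_le_pow_left hl j).trans (Nat.le_mul_of_pos_right _ (by positivity))
  · push_cast
    rw [← Real.rpow_natCast_mul (by positivity), mul_comm (j : ℝ), Real.rpow_mul_natCast (by positivity)]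
    rw [div_pow, div_mul_eq_mul_div, div_lt_one (by positivity)] at h1
    exact h1

theorem result (K : Type) [Field K] (ω : ℝ) (h : ∃ᶠ n : ℕ in atTop, (M K n : ℝ) < (n : ℝ) ^ ω) :
    ∀ᶠ n : ℕ in atTop, (M K n : ℝ) < (n : ℝ) ^ ω * Real.log n := by
  obtain ⟨n0, h0, h2⟩ := (h.and_eventually (eventually_ge_atTop 2)).exists
  obtain ⟨n, r, n2, hr, hd, hlt⟩ := good ω n0 h2 h0
  have n1 : (1 : ℝ) < n := by exact_mod_cast n2
  have p0 : (0 : ℝ) < n ^ ω := by positivity
  have w0 : 0 ≤ ω := by
    by_contra hw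
    have h3 : (n : ℝ) ^ ω < 1 := Real.rpow_lt_one_of_one_lt_of_neg n1 (by linarith)
    have h4 : (1 : ℝ) ≤ r := by
      have : 1 ≤ r := le_trans (Nat.one_le_pow _ _ (by omega)) hr
      exact_mod_cast this
    linarith
  set θ : ℝ := r / n ^ ω with hθ
  have θ0 : 0 ≤ θ := by positivity
  have θ1 : θ < 1 := (div_lt_one p0).2 hlt
  have t := (((tendsto_pow_atTop_nhds_zero_of_lt_one θ0 θ1).const_mul 2).add
    ((tendsto_self_mul_const_pow_of_lt_one θ0 θ1).const_mul (6 * (n : ℝ) ^ 2))).mul_const ((n : ℝ) ^ ω)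
  simp only [mul_zero, add_zero, zero_mul] at t
  obtain ⟨j0, hj0⟩ := eventually_atTop.1 (t.eventually (gt_mem_nhds zero_lt_one))
  filter_upwards [eventually_gt_atTop (n ^ j0), eventually_ge_atTop 3] with N hN h3
  have c1 : j0 < Nat.clog n N := (Nat.lt_clog_iff_pow_lt n2).2 hN
  have c2 := Nat.le_pow_clog n2 N
  have c3 := Nat.pow_pred_clog_lt_self n2 (x := N) (by omega)
  obtain ⟨j, hj⟩ : ∃ j, Nat.clog n N = j + 1 := ⟨Nat.clog n N - 1, by omega⟩
  rw [hj] at c1 c2 c3
  simp only [Nat.pred_succ] at c3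
  have a1 := M_le ((MMc.iter (B := Set.range (var K N)) hd hr (j + 1)).emb (I' := Fin N) (by simpa using c2))
  have a2 : N ^ 2 ≤ r ^ (j + 1) := by
    refine (Nat.pow_le_pow_left c2 2).trans ?_
    rw [← pow_mul, mul_comm, pow_mul]; exact Nat.pow_le_pow_left hr _
  have a3 : M K N ≤ (2 + 6 * n ^ 2 * (j + 1)) * r ^ (j + 1) := by
    calc _ ≤ (1 + 6 * n ^ 2 * (j + 1)) * r ^ (j + 1) + r ^ (j + 1) := by omega
      _ = _ := by ring
  have a4 : (M K N : ℝ) ≤ (2 + 6 * n ^ 2 * (j + 1)) * r ^ (j + 1) := by exact_mod_cast a3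
  have b1 := hj0 (j + 1) c1.le
  have b2 : (r : ℝ) = θ * n ^ ω := by rw [hθ]; field_simp
  have b3 : ((n : ℝ) ^ ω) ^ j ≤ (N : ℝ) ^ ω := by
    rw [← Real.rpow_mul_natCast (by positivity), mul_comm, Real.rpow_natCast_mul (by positivity)]
    exact Real.rpow_le_rpow (by positivity) (by exact_mod_cast c3.le) w0
  have N0 : (0 : ℝ) < N := by have : 0 < N := by omega
                              exact_mod_cast this
  have b4 : 1 ≤ Real.log N := by
    rw [Real.le_log_iff_exp_le N0]
    have : (3 : ℝ) ≤ N := by exact_mod_cast h3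
    linarith [Real.exp_one_lt_d9]
  have b5 : (0 : ℝ) < N ^ ω := by positivity
  have b6 : (0 : ℝ) < ((n : ℝ) ^ ω) ^ j := by positivity
  push_cast at b1
  calc (M K N : ℝ) ≤ ((2 * θ ^ (j + 1) + 6 * n ^ 2 * ((j + 1) * θ ^ (j + 1))) * n ^ ω) * (n ^ ω) ^ j := by
        rw [b2] at a4; refine a4.trans (le_of_eq ?_); ring
    _ < 1 * (n ^ ω) ^ j := mul_lt_mul_of_pos_right b1 b6
    _ ≤ _ := by nlinarith

end Pool.Agent.Results.MP_f57c03_lc.Regular
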